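import Pool.Agent.V11331.LA.Main
import Pool.Agent.V11331.LA.Exist

/-!
# The product form of the late-arrivals generating function is false

The definitions (`step`, `IsStationary`, `pgf`, `ProductForm`) are in
`Pool/Agent/V11331/LA/Defs.lean`.
-/

namespace Pool.Agent.Results.MP_4cdbd9_pr.NoProductForm

open Pool.Agent.V11331.LA

/-- **Disproof of Q1.** For `q = 1/10000` and `ρ = 1 - q³/2` the late-arrivals chain has a
stationary distribution, and for every stationary distribution `P` of the chain no family `β` gives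
the product form of the problem on `|z|, |y| ≤ 1`. -/
theorem result : ∃ ρ q : ℝ, 0 < ρ ∧ ρ < 1 ∧ 0 < q ∧ q < 1 ∧ q = 1 / 10000 ∧ ρ = 1 - q ^ 3 / 2 ∧
    (∃ P : ℕ × ℕ → ℝ, IsStationary ρ q P) ∧
    ∀ P : ℕ × ℕ → ℝ, IsStationary ρ q P → ¬ ProductForm ρ q P := by
  refine ⟨rho0, q0, ?_, ?_, ?_, ?_, rfl, ?_, ?_, fun P h => not_productForm h⟩
  · unfold rho0; norm_num
  · unfold rho0; norm_num
  · unfold q0; norm_num
  · unfold q0; norm_num
  · unfold rho0 q0; norm_num
  · apply exists_stationary
    · unfold rho0; norm_num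
    · unfold rho0; norm_num
    · unfold q0; norm_num
    · unfold q0; norm_num

end Pool.Agent.Results.MP_4cdbd9_pr.NoProductForm
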